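import Pool.Agent.H65.CF.T7

/-!
# Row DTS of the board `cfh_modules`: the derivative of the smoothed sum
-/

set_option autoImplicit false

open MeasureTheory Set Filter NumberField
open scoped Real nonZeroDivisors Topology

namespace Pool.Agent.H60.CFH

open Pool.Agent.H31.CN Pool.Agent.H65.AD Pool.Agent.H65.CF

theorem arg_deriv (a y v : ℝ) (hy : 0 < y) (hv : 0 < v) :
    HasDerivAt (fun v : ℝ => a / (y * Real.sqrt v)) (-(1 / (2 * v)) * (a / (y * Real.sqrt v))) v := by
  have hs : 0 < Real.sqrt v := Real.sqrt_pos.2 hv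
  have h1 : HasDerivAt (fun v : ℝ => y * Real.sqrt v) (y * (1 / (2 * Real.sqrt v))) v :=
    (Real.hasDerivAt_sqrt hv.ne').const_mul y
  have h2 := h1.inv (mul_pos hy hs).ne'
  have h3 := h2.const_mul a
  have e : -(1 / (2 * v)) * (a / (y * Real.sqrt v)) =
      a * (-(y * (1 / (2 * Real.sqrt v))) / (y * Real.sqrt v) ^ 2) := by
    have h4 : v = Real.sqrt v * Real.sqrt v := (Real.mul_self_sqrt hv.le).symm
    rw [show (2 * v : ℝ) = 2 * (Real.sqrt v * Real.sqrt v) by rw [← h4]]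
    field_simp
  rw [e]
  refine h3.congr_of_eventuallyEq (Filter.Eventually.of_forall fun x => ?_)
  show a / (y * Real.sqrt x) = a * (y * Real.sqrt x)⁻¹
  rw [div_eq_mul_inv]

theorem pf_DTS (hCHM : T_CHM) (hGQB : T_GQB) : T_DTS := by
  intro D y u hy hu
  obtain ⟨-, hch, -, -, -⟩ := hCHM
  obtain ⟨hcont, hdiff, C, hC, hb⟩ := hGQB
  set c : ℕ → ℝ := fun m => chm (m + 1) D / ((m : ℝ) + 1) with hc
  have hc1 : ∀ m, |c m| ≤ 1 := by
    intro m
    have h1 : (0 : ℝ) ≤ m := Nat.cast_nonneg m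
    rw [hc]
    simp only
    rw [abs_div, abs_of_pos (by linarith : (0 : ℝ) < (m : ℝ) + 1), div_le_one (by linarith)]
    have := hch (m + 1) D
    linarith
  set K : ℝ := y * Real.sqrt (3 * u / 2) with hK
  have hK0 : 0 < K := mul_pos hy (Real.sqrt_pos.2 (by linarith))
  set r : ℝ := Real.exp (-(1 / K)) with hr
  have hr0 : 0 < r := Real.exp_pos _
  have hr1 : r < 1 := by
    rw [hr, Real.exp_lt_one_iff]
    have : 0 < 1 / K := by positivity
    linarith
  have hsum : Summable (fun m : ℕ => r ^ (m + 1)) := by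
    have h1 := (summable_geometric_of_lt_one hr0.le hr1).mul_left r
    refine h1.congr fun m => ?_
    rw [pow_succ]
    ring
  have hpw : ∀ m : ℕ, r ^ (m + 1) = Real.exp (-(((m : ℝ) + 1) / K)) := by
    intro m
    rw [hr, ← Real.exp_nat_mul]
    congr 1
    push_cast
    ring
  set t : Set ℝ := Ioo (u / 2) (3 * u / 2) with ht
  have hut : u ∈ t := ⟨by linarith, by linarith⟩
  have htp : ∀ v ∈ t, 0 < v := fun v hv => by
    have := hv.1
    linarith
  have hw : ∀ m : ℕ, ∀ v ∈ t, 0 < ((m : ℝ) + 1) / (y * Real.sqrt v) := by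
    intro m v hv
    have h1 : (0 : ℝ) ≤ m := Nat.cast_nonneg m
    have h2 := Real.sqrt_pos.2 (htp v hv)
    positivity
  have hexp : ∀ m : ℕ, ∀ v ∈ t,
      Real.exp (-(((m : ℝ) + 1) / (y * Real.sqrt v))) ≤ r ^ (m + 1) := by
    intro m v hv
    rw [hpw m]
    refine Real.exp_le_exp.2 (neg_le_neg ?_)
    have h1 : (0 : ℝ) ≤ m := Nat.cast_nonneg m
    have h2 := Real.sqrt_pos.2 (htp v hv)
    have h3 : Real.sqrt v ≤ Real.sqrt (3 * u / 2) := Real.sqrt_le_sqrt hv.2.le
    refine div_le_div_of_nonneg_left (by linarith) (mul_pos hy h2) ?_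
    rw [hK]
    exact mul_le_mul_of_nonneg_left h3 hy.le
  have hder : ∀ (m : ℕ) (v : ℝ), v ∈ t →
      HasDerivAt (fun v : ℝ => c m * gq (((m : ℝ) + 1) / (y * Real.sqrt v)))
        (-(1 / (2 * v)) * (c m * gq1 (((m : ℝ) + 1) / (y * Real.sqrt v)))) v := by
    intro m v hv
    have h1 := (hdiff _ (hw m v hv)).hasDerivAt
    have h2 := arg_deriv ((m : ℝ) + 1) y v hy (htp v hv)
    have h3 := (h1.comp v h2).const_mul (c m)
    have e : -(1 / (2 * v)) * (c m * gq1 (((m : ℝ) + 1) / (y * Real.sqrt v))) =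
        c m * (deriv gq (((m : ℝ) + 1) / (y * Real.sqrt v)) *
          (-(1 / (2 * v)) * (((m : ℝ) + 1) / (y * Real.sqrt v)))) := by
      unfold gq1
      ring
    rw [e]
    exact h3
  have hbd1 : ∀ (m : ℕ) (v : ℝ), v ∈ t →
      ‖c m * gq1 (((m : ℝ) + 1) / (y * Real.sqrt v))‖ ≤ C * r ^ (m + 1) := by
    intro m v hv
    rw [Real.norm_eq_abs, abs_mul]
    have h1 := (hb _ (hw m v hv)).2.1
    calc |c m| * |gq1 (((m : ℝ) + 1) / (y * Real.sqrt v))|
        ≤ 1 * (C * Real.exp (-(((m : ℝ) + 1) / (y * Real.sqrt v)))) := by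
          refine mul_le_mul (hc1 m) h1 (abs_nonneg _) zero_le_one
      _ ≤ C * r ^ (m + 1) := by
          rw [one_mul]
          exact mul_le_mul_of_nonneg_left (hexp m v hv) hC.le
  have hbd2 : ∀ (m : ℕ) (v : ℝ), v ∈ t →
      ‖-(1 / (2 * v)) * (c m * gq1 (((m : ℝ) + 1) / (y * Real.sqrt v)))‖ ≤
        1 / u * (C * r ^ (m + 1)) := by
    intro m v hv
    rw [norm_mul]
    have hv0 := htp v hv
    have h1 : ‖-(1 / (2 * v))‖ ≤ 1 / u := by
      rw [norm_neg, Real.norm_eq_abs, abs_of_pos (by positivity)]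
      refine one_div_le_one_div_of_le hu ?_
      have := hv.1
      linarith
    exact mul_le_mul h1 (hbd1 m v hv) (norm_nonneg _) (by positivity)
  have hbd0 : Summable fun m : ℕ => c m * gq (((m : ℝ) + 1) / (y * Real.sqrt u)) := by
    refine Summable.of_norm_bounded (hsum.mul_left C) fun m => ?_
    rw [Real.norm_eq_abs, abs_mul]
    have h1 := (hb _ (hw m u hut)).1
    calc |c m| * |gq (((m : ℝ) + 1) / (y * Real.sqrt u))|
        ≤ 1 * (C * Real.exp (-(((m : ℝ) + 1) / (y * Real.sqrt u)))) := by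
          refine mul_le_mul (hc1 m) h1 (abs_nonneg _) zero_le_one
      _ ≤ C * r ^ (m + 1) := by
          rw [one_mul]
          exact mul_le_mul_of_nonneg_left (hexp m u hut) hC.le
  refine ⟨?_, ?_⟩
  · have h1 := hasDerivAt_tsum_of_isPreconnected ((hsum.mul_left C).mul_left (1 / u)) isOpen_Ioo
      isPreconnected_Ioo hder hbd2 hut hbd0 hut
    rw [tsum_mul_left] at h1
    exact h1
  · have h1 : ContinuousOn (fun v : ℝ => ∑' m : ℕ, c m * gq1 (((m : ℝ) + 1) / (y * Real.sqrt v)))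
        t := by
      refine continuousOn_tsum (fun m => ?_) (hsum.mul_left C) hbd1
      refine continuousOn_const.mul (hcont.comp ?_ (fun v hv => hw m v hv))
      intro v hv
      exact (arg_deriv ((m : ℝ) + 1) y v hy (htp v hv)).continuousAt.continuousWithinAt
    exact h1.continuousAt (isOpen_Ioo.mem_nhds hut)

end Pool.Agent.H60.CFH
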