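import Pool.Agent.H65.CF.T6
import Pool.Agent.H34.CN.NUI

/-!
# Row PRM of the board `cfh_modules`: local numbers under a change of variables
-/

set_option autoImplicit false

open MeasureTheory Set Filter NumberField
open scoped Real nonZeroDivisors

namespace Pool.Agent.H60.CFH

open Pool.Agent.H31.CN Pool.Agent.H65.AD Pool.Agent.H91.CF Pool.Agent.H65.CF
open Pool.Agent.H34.CN

theorem not_dvd_of_coprime {x : ℤ} {m p : ℕ} (h : IsCoprime x (m : ℤ)) (hp : p ∈ m.primeFactors) :
    ¬ (p : ℤ) ∣ x := by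
  intro hx
  have h1 : (p : ℤ) ∣ (m : ℤ) := Int.natCast_dvd_natCast.2 (Nat.dvd_of_mem_primeFactors hp)
  have h2 : IsUnit (p : ℤ) := h.isUnit_of_dvd' hx h1
  exact (Nat.prime_iff_prime_int.1 (Nat.prime_of_mem_primeFactors hp)).not_unit h2

section

variable (p : ℕ) [Fact p.Prime]

theorem prt_change (Q Q' : QF) (a b c d : ℤ) (hδ : ¬ (p : ℤ) ∣ a * d - b * c)
    (hv : ∀ v : ℤ × ℤ, val Q' v = val Q (a * v.1 + b * v.2, c * v.1 + d * v.2)) :
    prt p Q' = prt p Q := by
  have hp : p.Prime := Fact.out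
  have hδ' : (a : ZMod p) * d - b * c ≠ 0 := by
    intro h
    apply hδ
    rw [← ZMod.intCast_zmod_eq_zero_iff_dvd]
    push_cast
    exact h
  let G : ZMod p × ZMod p → ZMod p × ZMod p := fun w =>
    ((a : ZMod p) * w.1 + b * w.2, (c : ZMod p) * w.1 + d * w.2)
  let G' : ZMod p × ZMod p → ZMod p × ZMod p := fun w =>
    (((d : ZMod p) * w.1 - b * w.2) / ((a : ZMod p) * d - b * c),
      (-(c : ZMod p) * w.1 + a * w.2) / ((a : ZMod p) * d - b * c))
  have h1 : ∀ w, G' (G w) = w := by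
    intro w
    refine Prod.ext ?_ ?_
    · show ((d : ZMod p) * ((a : ZMod p) * w.1 + b * w.2) - b * ((c : ZMod p) * w.1 + d * w.2)) /
        ((a : ZMod p) * d - b * c) = w.1
      rw [div_eq_iff hδ']
      ring
    · show (-(c : ZMod p) * ((a : ZMod p) * w.1 + b * w.2) + a * ((c : ZMod p) * w.1 + d * w.2)) /
        ((a : ZMod p) * d - b * c) = w.2
      rw [div_eq_iff hδ']
      ring
  have h2 : ∀ w, G (G' w) = w := by
    intro w
    refine Prod.ext ?_ ?_
    · show (a : ZMod p) * (((d : ZMod p) * w.1 - b * w.2) / ((a : ZMod p) * d - b * c)) +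
        b * ((-(c : ZMod p) * w.1 + a * w.2) / ((a : ZMod p) * d - b * c)) = w.1
      rw [mul_div_assoc', mul_div_assoc', ← add_div, div_eq_iff hδ']
      ring
    · show (c : ZMod p) * (((d : ZMod p) * w.1 - b * w.2) / ((a : ZMod p) * d - b * c)) +
        d * ((-(c : ZMod p) * w.1 + a * w.2) / ((a : ZMod p) * d - b * c)) = w.2
      rw [mul_div_assoc', mul_div_assoc', ← add_div, div_eq_iff hδ']
      ring
  have hmem : ∀ w, w ∈ nuiZ p Q' ↔ G w ∈ nuiZ p Q := by
    intro w
    obtain ⟨v, rfl⟩ := nui_lift p w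
    rw [nui_mem, hv v]
    have h3 : G ((v.1 : ZMod p), (v.2 : ZMod p)) =
        (((a * v.1 + b * v.2 : ℤ) : ZMod p), ((c * v.1 + d * v.2 : ℤ) : ZMod p)) := by
      refine Prod.ext ?_ ?_
      · show (a : ZMod p) * (v.1 : ZMod p) + b * (v.2 : ZMod p) = _
        push_cast
        rfl
      · show (c : ZMod p) * (v.1 : ZMod p) + d * (v.2 : ZMod p) = _
        push_cast
        rfl
    rw [h3]
    exact (nui_mem p Q (a * v.1 + b * v.2, c * v.1 + d * v.2)).symm
  have hcard : (nuiZ p Q').card = (nuiZ p Q).card := by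
    refine Finset.card_nbij' G G' (fun w hw => (hmem w).1 hw) (fun w hw => ?_)
      (fun w _ => h1 w) (fun w _ => h2 w)
    rw [Finset.mem_coe] at hw ⊢
    rw [hmem, h2]
    exact hw
  rw [nui_count, nui_count] at hcard
  have h3 : 0 < p - 1 := by have := hp.two_le; omega
  exact Nat.eq_of_mul_eq_mul_left h3 (Nat.add_left_cancel hcard)

end

theorem pf_PRM : T_PRM := by
  intro m Q Q' a b c d hm hcop hv
  refine ⟨fun v => ?_, fun hQ hQ' p hp => ?_⟩
  · unfold nu
    refine Finset.prod_congr rfl fun p hp => ?_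
    have hpr : p.Prime := Nat.prime_of_mem_primeFactors hp
    have : Fact p.Prime := ⟨hpr⟩
    have hδ := not_dvd_of_coprime hcop hp
    have h1 := prt_change p Q Q' a b c d hδ hv
    have hpi : Prime (p : ℤ) := Nat.prime_iff_prime_int.1 hpr
    have h4 : ((p : ℤ) ∣ v.1 ∧ (p : ℤ) ∣ v.2) ↔
        ((p : ℤ) ∣ (a * v.1 + b * v.2) ∧ (p : ℤ) ∣ (c * v.1 + d * v.2)) := by
      constructor
      · rintro ⟨h5, h6⟩
        exact ⟨dvd_add (dvd_mul_of_dvd_right h5 _) (dvd_mul_of_dvd_right h6 _),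
          dvd_add (dvd_mul_of_dvd_right h5 _) (dvd_mul_of_dvd_right h6 _)⟩
      · rintro ⟨h5, h6⟩
        constructor
        · have h7 : (p : ℤ) ∣ (a * d - b * c) * v.1 := by
            have h8 : (a * d - b * c) * v.1 =
                d * (a * v.1 + b * v.2) - b * (c * v.1 + d * v.2) := by ring
            rw [h8]
            exact dvd_sub (dvd_mul_of_dvd_right h5 _) (dvd_mul_of_dvd_right h6 _)
          exact (hpi.dvd_or_dvd h7).resolve_left hδ
        · have h7 : (p : ℤ) ∣ (a * d - b * c) * v.2 := by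
            have h8 : (a * d - b * c) * v.2 =
                a * (c * v.1 + d * v.2) - c * (a * v.1 + b * v.2) := by ring
            rw [h8]
            exact dvd_sub (dvd_mul_of_dvd_right h6 _) (dvd_mul_of_dvd_right h5 _)
          exact (hpi.dvd_or_dvd h7).resolve_left hδ
    unfold nul
    rw [h1, hv v]
    by_cases h : (p : ℤ) ∣ v.1 ∧ (p : ℤ) ∣ v.2
    · rw [if_pos h, if_pos (h4.1 h)]
    · rw [if_neg h, if_neg (fun h' => h (h4.2 h'))]
  · have hpr : p.Prime := Nat.prime_of_mem_primeFactors hp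
    have : Fact p.Prime := ⟨hpr⟩
    have h1 := prt_change p Q Q' a b c d (not_dvd_of_coprime hcop hp) hv
    unfold prt at h1
    rw [if_neg (not_dvd_of_coprime hQ hp), if_neg (not_dvd_of_coprime hQ' hp), zero_add,
      zero_add] at h1
    exact h1

end Pool.Agent.H60.CFH
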